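import Pool.Agent.Helper94.HB.ThetaDefs

/-!
Piece HB-T of MP_18a08038_al: endomorphisms of the free ternary rack model.
-/

namespace HB

/-- two homomorphisms which agree on the letters of the reduced word of `d` agree at `d` -/
theorem hom_congr_letters {H : Type*} [Group H] (φ ψ : Gam →* H) (d : Gam)
    (h : ∀ x ∈ d.toWord, φ (FreeGroup.of x.1) = ψ (FreeGroup.of x.1)) : φ d = ψ d := by
  have h1 : φ = FreeGroup.lift (fun n => φ (FreeGroup.of n)) := by
    ext n
    simp
  have h2 : ψ = FreeGroup.lift (fun n => ψ (FreeGroup.of n)) := by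
    ext n
    simp
  rw [h1, h2, ← FreeGroup.mk_toWord (x := d), FreeGroup.lift_mk, FreeGroup.lift_mk]
  congr 1
  apply List.map_congr_left
  intro x hx
  have := h x hx
  simp only [this]

theorem lift_congr_letters {F F' : ℕ → Gam} (d : Gam)
    (h : ∀ x ∈ d.toWord, F x.1 = F' x.1) : FreeGroup.lift F d = FreeGroup.lift F' d := by
  apply hom_congr_letters
  intro x hx
  simpa using h x hx

theorem thApp_enc (f : ℕ → X) (k i : ℕ) (y : X) :
    thApp f (k + 1) (enc i y) =
      lam (f i) (mulX (FreeGroup.lift (thApp f k) y.1) (f y.2)) := by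
  simp only [thApp, dec_enc]

theorem thApp_junk (f : ℕ → X) (k : ℕ) {n : ℕ} (hn : ∀ i y, enc i y ≠ n) :
    thApp f k n = FreeGroup.of n := by
  cases k with
  | zero => rfl
  | succ k => simp only [thApp, dec_none hn]

theorem thApp_stable (f : ℕ → X) : ∀ n k : ℕ, n < k → thApp f k n = thApp f (n + 1) n := by
  intro n
  induction n using Nat.strong_induction_on with
  | _ n ih =>
    intro k hk
    obtain ⟨k, rfl⟩ : ∃ k', k = k' + 1 := ⟨k - 1, by omega⟩
    by_cases h : ∃ i y, enc i y = n
    · obtain ⟨i, y, rfl⟩ := h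
      rw [thApp_enc, thApp_enc]
      congr 2
      apply lift_congr_letters
      intro x hx
      have h1 := enc_lt (i := i) hx
      rw [ih _ h1 k (by omega), ih _ h1 (enc i y) h1]
    · have hn : ∀ i y, enc i y ≠ n := fun i y e => h ⟨i, y, e⟩
      rw [thApp_junk f _ hn, thApp_junk f _ hn]

theorem theta_letter (f : ℕ → X) (i : ℕ) (y : X) :
    theta f (letter i y) = lam (f i) (thX f y) := by
  have h0 : theta f (letter i y) = thApp f (enc i y + 1) (enc i y) := by
    simp [theta, letter]
  rw [h0, thApp_enc]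
  unfold thX
  congr 2
  unfold theta
  apply lift_congr_letters
  intro x hx
  exact thApp_stable f _ _ (enc_lt hx)

theorem theta_junk (f : ℕ → X) {n : ℕ} (hn : ∀ i y, enc i y ≠ n) :
    theta f (FreeGroup.of n) = FreeGroup.of n := by
  simp [theta, thApp_junk f _ hn]

theorem thX_gen (f : ℕ → X) (i : ℕ) : thX f (gen i) = f i := by
  simp [thX, gen]

theorem thX_mulX (f : ℕ → X) (d : Gam) (y : X) :
    thX f (mulX d y) = mulX (theta f d) (thX f y) := by
  unfold thX
  rw [mulX_fst, mulX_snd, map_mul, mulX_mul]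

theorem theta_lam (f : ℕ → X) (a b : X) : theta f (lam a b) = lam (thX f a) (thX f b) := by
  have h1 : thX f a = mulX (theta f a.1) (f a.2) := rfl
  have h2 : thX f b = mulX (theta f a.1) (mulX (theta f a.1)⁻¹ (thX f b)) := by
    rw [← mulX_mul]; simp
  have h3 : theta f (lam a b) = theta f a.1 * lam (f a.2) (mulX (theta f a.1)⁻¹ (thX f b)) *
      (theta f a.1)⁻¹ := by
    unfold lam
    rw [map_mul, map_mul, map_inv, theta_letter, thX_mulX, map_inv]
    rfl
  rw [h3, h2, h1, lam_mulX, ← h2]

theorem thX_tX (f : ℕ → X) (a b c : X) :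
    thX f (tX a b c) = tX (thX f a) (thX f b) (thX f c) := by
  unfold tX
  rw [thX_mulX, theta_lam]

theorem theta_unique (f : ℕ → X) (φ : Gam →* Gam)
    (h1 : ∀ i y, φ (letter i y) = lam (f i) (mulX (φ y.1) (f y.2)))
    (h2 : ∀ n, (∀ i y, enc i y ≠ n) → φ (FreeGroup.of n) = FreeGroup.of n) : φ = theta f := by
  apply FreeGroup.ext_hom
  intro n
  induction n using Nat.strong_induction_on with
  | _ n ih =>
    by_cases h : ∃ i y, enc i y = n
    · obtain ⟨i, y, rfl⟩ := h
      have e1 : φ y.1 = theta f y.1 :=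
        hom_congr_letters φ (theta f) y.1 (fun x hx => ih _ (enc_lt hx))
      have e2 := h1 i y
      rw [e1] at e2
      exact e2.trans (theta_letter f i y).symm
    · have hn : ∀ i y, enc i y ≠ n := fun i y e => h ⟨i, y, e⟩
      rw [h2 n hn, theta_junk f hn]

theorem theta_comp (f f' : ℕ → X) :
    (theta f).comp (theta f') = theta (fun i => thX f (f' i)) := by
  apply theta_unique
  · intro i y
    rw [MonoidHom.comp_apply, MonoidHom.comp_apply, theta_letter, theta_lam]
    congr 1
    unfold thX
    rw [mulX_fst, mulX_snd, map_mul, mulX_mul]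
  · intro n hn
    rw [MonoidHom.comp_apply, theta_junk f' hn, theta_junk f hn]

theorem thX_comp (f f' : ℕ → X) (y : X) :
    thX f (thX f' y) = thX (fun i => thX f (f' i)) y := by
  have h := theta_comp f f'
  have h1 : thX (fun i => thX f (f' i)) y =
      mulX (theta (fun i => thX f (f' i)) y.1) (thX f (f' y.2)) := rfl
  rw [h1, ← h]
  have h2 : thX f' y = mulX (theta f' y.1) (f' y.2) := rfl
  rw [h2, thX_mulX, MonoidHom.comp_apply]

theorem theta_gen : theta gen = MonoidHom.id Gam := by
  symm
  apply theta_unique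
  · intro i y
    simp [lam, gen, mulX]
  · intro n _
    rfl

theorem thX_id (y : X) : thX gen y = y := by
  unfold thX
  rw [theta_gen]
  simp [gen, mulX]

/-- induction on elements of `G` -/
theorem G_induction {P : G → Prop} (h1 : P 1) (ht : ∀ n, P (tau n))
    (hm : ∀ g h, P g → P h → P (g * h)) (hi : ∀ g, P g → P g⁻¹) (g : G) : P g := by
  obtain ⟨w, rfl⟩ := PresentedGroup.mk_surjective rels g
  refine FreeGroup.induction_on w ?_ ?_ ?_ ?_
  · simpa using h1
  · intro n
    exact ht n
  · intro n _
    rw [map_inv]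
    exact hi _ (ht n)
  · intro a b ha hb
    rw [map_mul]
    exact hm _ _ ha hb

theorem thX_sig (f : ℕ → X) (s : ℕ → X) (n : ℕ) :
    (fun i => thX f (sig n s i)) = sig n (fun j => thX f (s j)) := by
  funext i
  unfold sig
  by_cases h0 : i = n
  · simp only [h0, if_true]
    exact thX_tX f _ _ _
  · by_cases h1 : i = n + 1
    · simp [h1]
    · by_cases h2 : i = n + 2
      · simp [h2]
      · simp [h0, h1, h2]

theorem thX_act_fun (f : ℕ → X) (g : G) : ∀ s : ℕ → X,
    (fun i => thX f (act s g i)) = act (fun j => thX f (s j)) g := by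
  induction g using G_induction with
  | h1 => intro s; simp
  | ht n => intro s; simpa using thX_sig f s n
  | hm g h hg hh =>
    intro s
    rw [act_mul, act_mul, hh (act s g), hg s]
  | hi g hg =>
    intro s
    have h := hg (act s g⁻¹)
    rw [act_inv_act] at h
    rw [h, act_act_inv]

theorem thX_act (f : ℕ → X) (s : ℕ → X) (g : G) (i : ℕ) :
    thX f (act s g i) = act (fun j => thX f (s j)) g i :=
  congrFun (thX_act_fun f g s) i

theorem Th_gen (g : G) (i : ℕ) : Th g (gen i) = act gen g i := thX_gen _ i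

theorem Th_one (y : X) : Th 1 y = y := by
  unfold Th
  rw [act_one, thX_id]

theorem Th_mul (g h : G) (y : X) : Th (g * h) y = Th g (Th h y) := by
  unfold Th
  rw [thX_comp]
  congr 1
  funext i
  rw [thX_act, act_mul]
  congr 2
  funext j
  rw [thX_gen]

theorem Th_injective (g : G) : Function.Injective (Th g) := by
  intro a b hab
  have h : Th g⁻¹ (Th g a) = Th g⁻¹ (Th g b) := by rw [hab]
  rw [← Th_mul, ← Th_mul, inv_mul_cancel, Th_one, Th_one] at h
  exact h

theorem act_sh_zero (s : ℕ → X) (g : G) : act s (sh g) 0 = s 0 := by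
  revert s
  induction g using G_induction with
  | h1 => intro s; simp
  | ht n =>
    intro s
    rw [sh_tau, act_tau]
    exact sig_ne s (by omega)
  | hm g h hg hh =>
    intro s
    rw [map_mul, act_mul, hh, hg]
  | hi g hg =>
    intro s
    have h := hg (act s (sh g)⁻¹)
    rw [act_inv_act] at h
    rw [map_inv]
    exact h.symm

theorem tl_sig (s : ℕ → X) (n : ℕ) : tl (sig (n + 1) s) = sig n (tl s) := by
  funext i
  unfold tl sig
  by_cases h0 : i = n
  · simp only [h0, if_true]
  · by_cases h1 : i = n + 1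
    · simp [h1]
    · by_cases h2 : i = n + 2
      · simp [h2]
      · simp [h0, h1, h2]

theorem tl_act_sh (s : ℕ → X) (g : G) : tl (act s (sh g)) = act (tl s) g := by
  revert s
  induction g using G_induction with
  | h1 => intro s; simp
  | ht n =>
    intro s
    rw [sh_tau, act_tau, act_tau]
    exact tl_sig s n
  | hm g h hg hh =>
    intro s
    rw [map_mul, act_mul, hh, hg, act_mul]
  | hi g hg =>
    intro s
    have h := hg (act s (sh g)⁻¹)
    rw [act_inv_act] at h
    rw [map_inv, h, act_act_inv]

end HB
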